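import Pool.Agent.W_fd120a_h8.Stage2
import Pool.Prelude.Def_F_b2ee6af0

set_option autoImplicit false

open Filter Topology

namespace Pool.Agent.Results.MP_fd120a_nt.LowerBound99

/-- For every `ε > 0` and all large `N`, every choice of residues `a` and every upper end
`hi ≥ 2 N^0.51` (for instance `hi = N^0.52`, the set of the problem, or `hi = 2 N^0.51`), the integers
`n ∈ [1, N]` with `n ≡ a p mod p` for some prime `N^0.51 ≤ p < hi` number at least
`N^(0.99 - ε)`. -/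
theorem result (ε : ℝ) (hε : 0 < ε) :
    ∀ᶠ N : ℕ in atTop, ∀ (a : ℕ → ℤ) (hi : ℝ), 2 * (N : ℝ) ^ (0.51 : ℝ) ≤ hi →
      (N : ℝ) ^ (0.99 - ε) ≤
        (N7c497599.sievedCard N a ((N : ℝ) ^ (0.51 : ℝ)) hi : ℝ) :=
  FDP.stage2 ε hε

end Pool.Agent.Results.MP_fd120a_nt.LowerBound99
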